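import Mathlib
import Pool.Agent.K1H89.PL.A16

/-!
# The law of Poisson for the prime values of random systems of polynomials

An unconditional form of the theorem of Gallagher for almost all systems. Fix `s ≥ 1` integer polynomials
`h_1, …, h_s` (of any degrees) and a class `g` modulo the product `W` of the primes `p ≤ w`. Let the coefficients
`a_{ij}`, `j ≤ d`, run over all integers with `|a_{ij}| ≤ H`, `a_{ij} ≡ g_{ij} (mod W)`, and let `F` be the system
`f_i = h_i + ∑_{j ≤ d} a_{ij} X ^ j`. All the systems `F` of this family have the same local factors at the primes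
`p ≤ w`. In disjoint windows `(u_j, v_j]` below `(log H) ^ A` of total length at most `λ (log H) ^ s`, the scale on which
the expected number of prime values is bounded, the numbers of `n` such that all the `|f_i(n)|` are primes follow the
law of Poisson with the means `C_F(w) (v_j - u_j) / (log H) ^ s`, up to the error of the truncated inclusion and
exclusion of order `d + 1`. The error tends to `0` as `d` grows.
-/

set_option autoImplicit false

namespace Pool.Agent.K1H89.Old.PoissonLaw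

open Finset Polynomial

/-- The system `f_i = h_i + ∑_{j ≤ d} a_{ij} X ^ j`. -/
noncomputable def system {s d : ℕ} (h : Fin s → ℤ[X]) (a : Fin s → Fin (d + 1) → ℤ) (i : Fin s) : ℤ[X] :=
  h i + ∑ j, C (a i j) * X ^ (j : ℕ)

/-- `ω_F(p)`: the number of `n ∈ {1, …, p}` with `f_1(n) ⋯ f_s(n) ≡ 0 (mod p)`. -/
noncomputable def omega {s : ℕ} (F : Fin s → ℤ[X]) (p : ℕ) : ℕ :=
  ((Icc 1 p).filter (fun n : ℕ => (p : ℤ) ∣ ∏ i, (F i).eval (n : ℤ))).card

/-- `C_F(w)`: the part of the product `C_F` over the primes `p ≤ w`. -/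
noncomputable def constant {s : ℕ} (F : Fin s → ℤ[X]) (w : ℕ) : ℝ :=
  ∏ p ∈ (Icc 1 w).filter Nat.Prime, (1 - (omega F p : ℝ) / p) / (1 - 1 / (p : ℝ)) ^ s

/-- The number of the integers `n`, `u < n ≤ v`, such that all the `|f_i(n)|` are primes. -/
noncomputable def count {s : ℕ} (F : Fin s → ℤ[X]) (u v : ℕ) : ℕ :=
  ((Ioc u v).filter (fun n : ℕ => ∀ i, ((F i).eval (n : ℤ)).natAbs.Prime)).card

/-- The family: `|a_{ij}| ≤ H` and `a_{ij} ≡ g_{ij}` modulo the product of the primes `p ≤ w`. -/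
noncomputable def family {s d : ℕ} (H w : ℕ) (g : Fin s → Fin (d + 1) → ℤ) : Finset (Fin s → Fin (d + 1) → ℤ) :=
  Fintype.piFinset fun i => Fintype.piFinset fun j =>
    (Icc (-(H : ℤ)) H).filter (fun x => x ≡ g i j [ZMOD ((∏ p ∈ (Icc 1 w).filter Nat.Prime, p : ℕ) : ℤ)])

open Classical in
/-- The proportion of the systems of the family for which each window `(u_j, v_j]` contains exactly `r_j` integers
`n` such that all the `|f_i(n)|` are primes. -/
noncomputable def proportion {s d J : ℕ} (h : Fin s → ℤ[X]) (H w : ℕ) (g : Fin s → Fin (d + 1) → ℤ) (u v r : Fin J → ℕ) : ℝ :=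
  (((family H w g).filter (fun a => ∀ j, count (system h a) (u j) (v j) = r j)).card : ℝ) / (family H w g).card

/-- The expected number of `n` in the window `(u, v]`. -/
noncomputable def mean {s d : ℕ} (h : Fin s → ℤ[X]) (H w : ℕ) (g : Fin s → Fin (d + 1) → ℤ) (u v : ℕ) : ℝ :=
  constant (system h g) w * ((v : ℝ) - u) / Real.log H ^ s

/-- The windows `(u_j, v_j]` are disjoint, below `(log H) ^ A`, and of total length at most `λ (log H) ^ s`. -/
def Windows {J : ℕ} (s A H : ℕ) (lam : ℝ) (u v : Fin J → ℕ) : Prop :=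
  (∀ j, u j ≤ v j) ∧ (∀ j, (v j : ℝ) ≤ Real.log H ^ A) ∧ (∀ i j, i ≠ j → Disjoint (Ioc (u i) (v i)) (Ioc (u j) (v j))) ∧
    ∑ j, ((v j : ℝ) - u j) ≤ lam * Real.log H ^ s

/-- The polynomials `h_i` are at most `H (log H) ^ A` in absolute value at the integers up to `(log H) ^ A`. -/
def Bounded {s : ℕ} (A H : ℕ) (h : Fin s → ℤ[X]) : Prop :=
  ∀ i, ∀ n : ℕ, (n : ℝ) ≤ Real.log H ^ A → |(((h i).eval (n : ℤ) : ℤ) : ℝ)| ≤ H * Real.log H ^ A

open Pool.Agent.K1H89.PL

lemma mean_eq {s d : ℕ} (h : Fin s → ℤ[X]) (H w : ℕ) (g : Fin s → Fin (d + 1) → ℤ) (u v : ℕ) :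
    mean h H w g u v = (rho (primorial w) ^ s * (by classical exact ((((range (primorial w)).filter
      (fun n => okn (fun i n => (h i).eval (n : ℤ)) g (primorial w) n)).card : ℝ) / primorial w))) * ((v : ℝ) - u) /
      Real.log H ^ s := by
  unfold mean
  rw [← const_eq]
  rfl

lemma family_eq {s d : ℕ} (H w : ℕ) (g : Fin s → Fin (d + 1) → ℤ) : family H w g = fam H (primorial w) g := by
  rw [primorial_eq]
  rfl

lemma mean_nonneg {s d : ℕ} (h : Fin s → ℤ[X]) (H w : ℕ) (hH : 1 ≤ H) (g : Fin s → Fin (d + 1) → ℤ) (u v : ℕ) (huv : u ≤ v) :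
    0 ≤ mean h H w g u v := by
  rw [mean_eq]
  have h1 : 1 ≤ rho (primorial w) := rho_ge (primorial_pos w)
  have h2 : (0 : ℝ) ≤ (v : ℝ) - u := by
    have : (u : ℝ) ≤ v := by exact_mod_cast huv
    linarith
  have h3 : 0 ≤ Real.log H := Real.log_nonneg (by exact_mod_cast hH)
  positivity

theorem law (s d J A : ℕ) (hs : 1 ≤ s) (hA : 1 ≤ A) (lam ε : ℝ) (hε : 0 < ε) :
    ∃ w₀ : ℕ, ∀ w : ℕ, w₀ ≤ w → ∃ H₀ : ℕ, ∀ H : ℕ, H₀ ≤ H →
    ∀ h : Fin s → ℤ[X], Bounded A H h → ∀ g : Fin s → Fin (d + 1) → ℤ, ∀ u v : Fin J → ℕ, Windows s A H lam u v →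
    ∀ r : Fin J → ℕ, ∑ j, r j ≤ d + 1 → ∀ μ : Fin J → ℝ, (∀ j, μ j = mean h H w g (u j) (v j)) →
    |proportion h H w g u v r - Real.exp (-∑ j, μ j) * ∏ j, (μ j ^ r j / ((r j).factorial : ℝ))| ≤
      (∏ j, (μ j ^ r j / ((r j).factorial : ℝ))) * ((∑ j, μ j) ^ (d + 1 - ∑ j, r j) / ((d + 1 - ∑ j, r j).factorial : ℝ)) + ε := by
  classical
  obtain ⟨w0, hw0⟩ := main1 s d A J hs hA (max lam 0) ε (le_max_right _ _) hε
  refine ⟨w0, fun w hw => ?_⟩
  obtain ⟨H0, hH0⟩ := hw0 w hw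
  refine ⟨max H0 1, fun H hH h hh g u v hW r hr μ hμ => ?_⟩
  obtain ⟨hW1, hW2, hW3, hW4⟩ := hW
  have hH1 : 1 ≤ H := (le_max_right _ _).trans hH
  have hL : 0 ≤ Real.log H := Real.log_nonneg (by exact_mod_cast hH1)
  have hmain := hH0 H ((le_max_left _ _).trans hH) (fun i n => (h i).eval (n : ℤ)) hh
    (fun i n => eval_period (h i) n (primorial w)) g u v hW1 hW2 (fun i _ j _ hij => hW3 i j hij)
    (hW4.trans (mul_le_mul_of_nonneg_right (le_max_left _ _) (pow_nonneg hL _))) r hr μ (fun j => by rw [hμ j, mean_eq])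
  unfold Pi0 at hmain
  have e : proportion h H w g u v r = (((fam H (primorial w) g).filter (fun a => ∀ j,
        ((Ioc (u j) (v j)).filter (fun n => ∀ i, (pv (fun n => (h i).eval (n : ℤ)) (a i) n).natAbs.Prime)).card = r j)).card : ℝ) /
        (fam H (primorial w) g).card := by
    unfold proportion
    rw [family_eq]
    congr 2
    apply congrArg
    apply filter_congr
    intro a _
    apply forall_congr'
    intro j
    unfold count
    have e2 : (Ioc (u j) (v j)).filter (fun n : ℕ => ∀ i, ((system h a i).eval (n : ℤ)).natAbs.Prime) =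
        (Ioc (u j) (v j)).filter (fun n => ∀ i, (pv (fun n => (h i).eval (n : ℤ)) (a i) n).natAbs.Prime) := by
      apply filter_congr
      intro n _
      apply forall_congr'
      intro i
      rw [← sys_eval]
      rfl
    rw [e2]
  rw [e]
  exact hmain

/-- **The law of Poisson for the prime values of random systems.** Let `s ≥ 1`, `A ≥ 1`, `d`, `J`, `λ` and `ε > 0` be
given. For all `w ≥ w₀` and `H ≥ H₀(w)`, all integer polynomials `h_1, …, h_s` with `|h_i(n)| ≤ H (log H) ^ A` for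
`n ≤ (log H) ^ A`, all classes `g`, all systems of `J` disjoint windows below `(log H) ^ A` of total length at most
`λ (log H) ^ s` and all `r_1, …, r_J` with `r = r_1 + … + r_J ≤ d + 1`: the proportion of the systems of the family for
which each window contains exactly `r_j` integers `n` such that all the values are primes differs from
`e ^ (-μ) ∏ μ_j ^ r_j / r_j!` by at most `E + ε`, `E = (∏ μ_j ^ r_j / r_j!) μ ^ (d + 1 - r) / (d + 1 - r)! ≤ e ^ (4 μ) / 2 ^ (d + 1)`.
Here `μ_j = C_F(w) (v_j - u_j) / (log H) ^ s`, the same for all the systems of the family, and `μ = μ_1 + … + μ_J`. -/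
theorem result (s d J A : ℕ) (hs : 1 ≤ s) (hA : 1 ≤ A) (lam ε : ℝ) (hε : 0 < ε) :
    ∃ w₀ : ℕ, ∀ w : ℕ, w₀ ≤ w → ∃ H₀ : ℕ, ∀ H : ℕ, H₀ ≤ H →
    ∀ h : Fin s → ℤ[X], Bounded A H h → ∀ g : Fin s → Fin (d + 1) → ℤ, ∀ u v : Fin J → ℕ, Windows s A H lam u v →
    ∀ r : Fin J → ℕ, ∑ j, r j ≤ d + 1 → ∀ μ : Fin J → ℝ, (∀ j, μ j = mean h H w g (u j) (v j)) →
    ∀ E : ℝ, E = (∏ j, (μ j ^ r j / ((r j).factorial : ℝ))) *
      ((∑ j, μ j) ^ (d + 1 - ∑ j, r j) / ((d + 1 - ∑ j, r j).factorial : ℝ)) →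
    |proportion h H w g u v r - Real.exp (-∑ j, μ j) * ∏ j, (μ j ^ r j / ((r j).factorial : ℝ))| ≤ E + ε ∧
      0 ≤ E ∧ E ≤ Real.exp (4 * ∑ j, μ j) / 2 ^ (d + 1) := by
  obtain ⟨w0, hw0⟩ := law s d J A hs hA lam ε hε
  refine ⟨w0, fun w hw => ?_⟩
  obtain ⟨H0, hH0⟩ := hw0 w hw
  refine ⟨max H0 1, fun H hH h hh g u v hW r hr μ hμ E hE => ?_⟩
  have hμ0 : ∀ j, 0 ≤ μ j := fun j => by
    rw [hμ j]
    exact mean_nonneg h H w ((le_max_right _ _).trans hH) g _ _ (hW.1 j)
  have h1 := tail_bound r μ (d + 1 - ∑ j, r j) hμ0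
  unfold Pi0 at h1
  have e1 : ∑ j, r j + (d + 1 - ∑ j, r j) = d + 1 := by omega
  rw [e1] at h1
  rw [hE]
  refine ⟨hH0 H ((le_max_left _ _).trans hH) h hh g u v hW r hr μ hμ, ?_, h1⟩
  apply mul_nonneg
  · exact prod_nonneg fun j _ => by
      have := hμ0 j
      positivity
  · have : 0 ≤ ∑ j, μ j := sum_nonneg fun j _ => hμ0 j
    positivity

end Pool.Agent.K1H89.Old.PoissonLaw
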